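import Mathlib
import Pool.Agent.Helper843.KissPoly

set_option autoImplicit false

namespace Pool.Agent.W2helper54.K13

open Finset
open Pool.Agent.Helper843.Kiss (ev low piece low_le)

/-- the polynomial (scaled) -/
noncomputable def f (t : ℝ) : ℝ := 6640625000000000000 * t ^ 9 + (-14062500000000000000) * t ^ 7 + 9909103839581250000 * t ^ 5 + 1520289812270250000 * t ^ 4 + (-1847919564255083750) * t ^ 3 + (-381619717643030175) * t ^ 2 + 38883963407098992 * t + (-831404467836171)

noncomputable def F (s : ℝ) : ℝ := f (-s)

/-- the budget : `13 c0 - f 1 - (12/13) Λ ρ` -/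
noncomputable def BB : ℝ := 462015881808333456

lemma f_one : f 1 = 1816031928892648896 := by
  unfold f; norm_num

lemma F_eq (s : ℝ) : F s = (-6640625000000000000) * s ^ 9 + 14062500000000000000 * s ^ 7 + (-9909103839581250000) * s ^ 5 + 1520289812270250000 * s ^ 4 + 1847919564255083750 * s ^ 3 + (-381619717643030175) * s ^ 2 + (-38883963407098992) * s + (-831404467836171) := by
  unfold F f; ring

lemma q_pos (t : ℝ) (h0 : (-339 / 500) ≤ t) (h1 : t ≤ 1 / 2) : 0 < (1 * t ^ 3 + (-479 / 500) * t ^ 2 + (-593631 / 531250) * t + (1326403761 / 1062500000)) := by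
  rcases le_total t (-3 / 32) with g0 | g0
  · exact piece (-11 / 16) (19 / 32) [(168483940533 / 136000000000), (110010107 / 68000000), (-6041 / 2000), 1] t (by linarith) (by linarith) (by simp only [ev]; ring) (by norm_num [low])
  exact piece (-3 / 32) (19 / 32) [(1462157243889 / 1088000000000), (-247909197 / 272000000), (-4957 / 4000), 1] t (by linarith) (by linarith) (by simp only [ev]; ring) (by norm_num [low])

/-- `f` is nonpositive on `[-t0, 1/2]` -/
lemma f_nonpos (t : ℝ) (h0 : (-339 / 500) ≤ t) (h1 : t ≤ 1 / 2) : f t ≤ 0 := by
  have e : f t = -(6640625000000000000 * ((t + (43 / 100)) ^ 2 * (t - (1 / 25)) ^ 2) * ((1 / 2 - t) * (t + (339 / 500))) * (1 * t ^ 3 + (-479 / 500) * t ^ 2 + (-593631 / 531250) * t + (1326403761 / 1062500000))) := by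
    unfold f; ring
  rw [e]
  have := q_pos t h0 h1
  have a1 : 0 ≤ (1 / 2 - t) * (t + (339 / 500)) := mul_nonneg (by linarith) (by linarith)
  have a2 : 0 ≤ (t + (43 / 100)) ^ 2 * (t - (1 / 25)) ^ 2 := by positivity
  have a3 : 0 ≤ (6640625000000000000 * ((t + (43 / 100)) ^ 2 * (t - (1 / 25)) ^ 2) * ((1 / 2 - t) * (t + (339 / 500))) * (1 * t ^ 3 + (-479 / 500) * t ^ 2 + (-593631 / 531250) * t + (1326403761 / 1062500000))) :=
    mul_nonneg (mul_nonneg (mul_nonneg (by norm_num) a2) a1) this.le
  linarith

lemma g_le (t : ℝ) (h0 : 1 / 2 ≤ t) (h1 : t ≤ (1013 / 2000)) : 0 < (-6640625000000000000) * t ^ 8 + (-3320312500000000000) * t ^ 7 + 12402343750000000000 * t ^ 6 + 6201171875000000000 * t ^ 5 + (-6808517902081250000) * t ^ 4 + (-4924548763310875000) * t ^ 3 + (-614354817400353750) * t ^ 2 + 74442308942853300 * t + 849337191064327658 := by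
  exact piece (1 / 2) (13 / 2000) [(55124072533456741 / 2), (-4152475610106281700), (-3919521221738541250), 9082927151276625000, 11624099285418750000, (-20507812500000000000), (-45703125000000000000), (-29882812500000000000), (-6640625000000000000)] t (by linarith) (by linarith) (by simp only [ev]; ring) (by norm_num [low])

/-- near bound -/
lemma f_near (t : ℝ) (h0 : 1 / 2 ≤ t) (h1 : t ≤ (1013 / 2000)) : f t ≤ 851000000000000000 * (t - 1 / 2) := by
  have h := mul_nonneg (sub_nonneg.2 h0) (g_le t h0 h1).le
  have e : (t - 1 / 2) * ((-6640625000000000000) * t ^ 8 + (-3320312500000000000) * t ^ 7 + 12402343750000000000 * t ^ 6 + 6201171875000000000 * t ^ 5 + (-6808517902081250000) * t ^ 4 + (-4924548763310875000) * t ^ 3 + (-614354817400353750) * t ^ 2 + 74442308942853300 * t + 849337191064327658) = 851000000000000000 * (t - 1 / 2) - f t := by unfold f; ring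
  rw [e] at h
  linarith

lemma I2 (s : ℝ) (h0 : (339 / 500) ≤ s) (h1 : s ≤ 1) : 0 < BB - F s := by
  rcases le_total s (235 / 256) with g0 | g0
  · exact piece (43 / 64) (63 / 256) [(2039819429938760148929343090699 / 4398046511104), (-18714989482818762546600543063 / 68719476736), (-822420965921643889634408325 / 268435456), (-42725699895717005632131875 / 4194304), (-387041914156051018546875 / 131072), (96468710290751218359375 / 2048), (1648705959320068359375 / 16), 93854141235351562500, 40155029296875000000, 6640625000000000000] s (by linarith) (by linarith) (by simp only [ev]; unfold BB F f; ring) (by norm_num [low])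
  rcases le_total s (491 / 512) with g1 | g1
  · exact piece (235 / 256) (21 / 512) [(137981353132919193995765046448582347 / 1152921504606846976), (-10002059807018194494203931542528343 / 4503599627370496), (13519405872140058049345322310075 / 4398046511104), (1036820726042754259425594668125 / 17179869184), (28002954007989201127822453125 / 134217728), (186228281692247100718359375 / 524288), (349315728664398193359375 / 1024), (749549961090087890625 / 4), 54862976074218750000, 6640625000000000000] s (by linarith) (by linarith) (by simp only [ev]; unfold BB F f; ring) (by norm_num [low])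
  rcases le_total s (1003 / 1024) with g2 | g2
  · exact piece (491 / 512) (21 / 1024) [(22759929825435062920863570329572480971 / 590295810358705651712), (-1846181344844744725884999275466967383 / 1152921504606846976), (7242864509390132408506422831116475 / 562949953421312), (111101035792714816668538484588125 / 1099511627776), (1247920358780819983540570453125 / 4294967296), (3741203838656973966718359375 / 8388608), (3256746758937835693359375 / 8192), (3292665195465087890625 / 16), 57314300537109375000, 6640625000000000000] s (by linarith) (by linarith) (by simp only [ev]; unfold BB F f; ring) (by norm_num [low])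
  rcases le_total s (2027 / 2048) with g3 | g3
  · exact piece (1003 / 1024) (21 / 2048) [(3642824708631858137170941151687645686219 / 302231454903657293676544), (-276165688211056420215523202187157576023 / 295147905179352825856), (1430726916196573563368310570443775675 / 72057594037927936), (8924577114146175872028226751468125 / 70368744177664), (46572004100551745765003506453125 / 137438953472), (66672545241694166322718359375 / 134217728), (28034608819484710693359375 / 65536), (13778895664215087890625 / 64), 58539962768554687500, 6640625000000000000] s (by linarith) (by linarith) (by simp only [ev]; unfold BB F f; ring) (by norm_num [low])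
  rcases le_total s (4075 / 4096) with g4 | g4
  · exact piece (2027 / 2048) (21 / 4096) [(725253195606354673793091835146901158890955 / 154742504910672534362390528), (-36796906987061269462400210117748500511063 / 75557863725914323419136), (221138667926817981537636326445420313275 / 9223372036854775808), (636159833613767057663216641815788125 / 4503599627370496), (1605317119653003053148647458453125 / 4398046511104), (1124306955873492369018718359375 / 2147483648), (232469532940578460693359375 / 524288), (56351356601715087890625 / 256), 59152793884277343750, 6640625000000000000] s (by linarith) (by linarith) (by simp only [ev]; unfold BB F f; ring) (by norm_num [low])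
  exact piece (4075 / 4096) (21 / 4096) [(224969152820776645210128469626707695931839947 / 79228162514264337593543950336), (-4445341492502959662694129513160787583170903 / 19342813113834066795298816), (30939547070555064296682313598313627366075 / 1180591620717411303424), (42911787111235744085717132557420268125 / 288230376151711744), (53283734616766224268392033922453125 / 140737488355328), (18461760190348669862154718359375 / 34359738368), (1893073781182765960693359375 / 4194304), (227896278476715087890625 / 1024), 59459209442138671875, 6640625000000000000] s (by linarith) (by linarith) (by simp only [ev]; unfold BB F f; ring) (by norm_num [low])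

lemma I3 (s : ℝ) (h0 : (339 / 500) ≤ s) (h1 : s ≤ (49 / 50)) : 0 < ((-59765625000000000000) * s ^ 8 + 98437500000000000000 * s ^ 6 + (-49545519197906250000) * s ^ 4 + 6081159249081000000 * s ^ 3 + 5543758692765251250 * s ^ 2 + (-763239435286060350) * s + (-38883963407098992)) := by
  exact piece (43 / 64) (493 / 1600) [(18714989482818762546600543063 / 68719476736), (822420965921643889634408325 / 134217728), (128177099687151016896395625 / 4194304), (387041914156051018546875 / 32768), (-482343551453756091796875 / 2048), (-4946117877960205078125 / 8), (-656978988647460937500), (-321240234375000000000), (-59765625000000000000)] s (by linarith) (by linarith) (by simp only [ev]; ring) (by norm_num [low])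

lemma F_mono : MonotoneOn F (Set.Icc ((339 / 500)) ((49 / 50))) := by
  have hd : ∀ s, HasDerivAt F ((-59765625000000000000) * s ^ 8 + 98437500000000000000 * s ^ 6 + (-49545519197906250000) * s ^ 4 + 6081159249081000000 * s ^ 3 + 5543758692765251250 * s ^ 2 + (-763239435286060350) * s + (-38883963407098992)) s := by
    intro s
    have h := (((((((((hasDerivAt_pow 9 s).const_mul ((-6640625000000000000))).fun_add ((hasDerivAt_pow 7 s).const_mul (14062500000000000000))).fun_add ((hasDerivAt_pow 5 s).const_mul ((-9909103839581250000)))).fun_add ((hasDerivAt_pow 4 s).const_mul (1520289812270250000))).fun_add ((hasDerivAt_pow 3 s).const_mul (1847919564255083750))).fun_add ((hasDerivAt_pow 2 s).const_mul ((-381619717643030175)))).fun_add ((hasDerivAt_id' s).const_mul ((-38883963407098992)))).fun_add (hasDerivAt_const s ((-831404467836171) : ℝ)))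
    have h2 : F = fun s => (-6640625000000000000) * s ^ 9 + 14062500000000000000 * s ^ 7 + (-9909103839581250000) * s ^ 5 + 1520289812270250000 * s ^ 4 + 1847919564255083750 * s ^ 3 + (-381619717643030175) * s ^ 2 + (-38883963407098992) * s + (-831404467836171) := by
      funext x
      rw [F_eq]
    rw [h2]
    refine (h.congr_deriv ?_)
    norm_num
    ring
  apply monotoneOn_of_deriv_nonneg (convex_Icc _ _)
  · exact fun s _ => (hd s).continuousAt.continuousWithinAt
  · exact fun s _ => (hd s).differentiableAt.differentiableWithinAt
  · intro s hs
    rw [interior_Icc] at hs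
    rw [(hd s).deriv]
    exact (I3 s hs.1.le hs.2.le).le

lemma I4 (u : ℝ) (h0 : (8 / 5) ≤ u) (h1 : u ≤ (17359 / 10000)) : 0 < BB - ((258940416977734375000000000000 / 82413152392561) * u ^ 9 + (307417091780566406250000000 / 27352523197) * u ^ 7 + (-882636267229339035937500 / 9078169) * u ^ 5 + (-1480505348172949827750000 / 9078169) * u ^ 4 + (1398347451684099183125 / 12052) * u ^ 3 + (2633978154030323510475 / 3013) * u ^ 2 + (-110142862940857605117 / 256) * u + (-778358212211293893 / 160)) := by
  exact piece (8 / 5) (1359 / 10000) [(16791460481086891020201771390045 / 1318610438280976), (1374402765827324055511698360826797 / 21097767012495616), (-37492491491834161189796571569325 / 82413152392561), (-1183195104282903764525229015850625 / 329652609570244), (-397358392974765362022863022750000 / 82413152392561), (-255603336524901530723462301562500 / 82413152392561), (-99466049839417481718750000000000 / 82413152392561), (-24790196526202846582031250000000 / 82413152392561), (-3728742004479375000000000000000 / 82413152392561), (-258940416977734375000000000000 / 82413152392561)] u (by linarith) (by linarith) (by simp only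 [ev]; unfold BB; ring) (by norm_num [low])

/-- the pair sum as a polynomial in sum and product -/
noncomputable def G (u e : ℝ) : ℝ := (-831404467836171) * 2 + (-38883963407098992) * u + (-381619717643030175) * (u ^ 2 - 2 * e) + 1847919564255083750 * (u ^ 3 - 3 * u * e) + 1520289812270250000 * (u ^ 4 - 4 * u ^ 2 * e + 2 * e ^ 2) + (-9909103839581250000) * (u ^ 5 - 5 * u ^ 3 * e + 5 * u * e ^ 2) + 14062500000000000000 * (u ^ 7 - 7 * u ^ 5 * e + 14 * u ^ 3 * e ^ 2 - 7 * u * e ^ 3) + (-6640625000000000000) * (u ^ 9 - 9 * u ^ 7 * e + 27 * u ^ 5 * e ^ 2 - 30 * u ^ 3 * e ^ 3 + 9 * u * e ^ 4)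

lemma G_eq (w s : ℝ) : F w + F s = G (w + s) (w * s) := by
  rw [F_eq, F_eq]; unfold G; ring

lemma G_sub (u : ℝ) : G u ((1000 / 3013) * u ^ 2 - (987 / 4000)) = (258940416977734375000000000000 / 82413152392561) * u ^ 9 + (307417091780566406250000000 / 27352523197) * u ^ 7 + (-882636267229339035937500 / 9078169) * u ^ 5 + (-1480505348172949827750000 / 9078169) * u ^ 4 + (1398347451684099183125 / 12052) * u ^ 3 + (2633978154030323510475 / 3013) * u ^ 2 + (-110142862940857605117 / 256) * u + (-778358212211293893 / 160) := by
  unfold G; ring

lemma pair_aux (s w : ℝ) (hs : (339 / 500) ≤ s) (hsw : s ≤ w)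
    (hw : w ^ 2 - (1013 / 1000) * (w * s) + s ^ 2 = (2973831 / 4000000)) : F w + F s < BB := by
  obtain ⟨u, hu⟩ : ∃ u, u = w + s := ⟨_, rfl⟩
  have he : w * s = (1000 / 3013) * u ^ 2 - (987 / 4000) := by
    rw [hu]; linarith
  have hu0 : 2 * (339 / 500) ≤ u := by rw [hu]; linarith
  have hprod : 0 ≤ (w - (339 / 500)) * (s - (339 / 500)) := mul_nonneg (by linarith) (by linarith)
  have hp2 : w * s ≥ (339 / 500) * u - (339 / 500) ^ 2 := by rw [hu]; nlinarith
  have hu1 : (8 / 5) ≤ u := by
    by_contra hlt
    push Not at hlt
    rw [he] at hp2
    nlinarith [mul_nonneg (sub_nonneg.2 hu0) (sub_nonneg.2 hlt.le)]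
  have hu2 : u ≤ (17359 / 10000) := by
    have h4 : 4 * (w * s) ≤ u ^ 2 := by rw [hu]; nlinarith [sq_nonneg (w - s)]
    rw [he] at h4
    by_contra hlt
    push Not at hlt
    nlinarith
  have h := I4 u hu1 hu2
  rw [G_eq, ← hu, he, G_sub]
  linarith

lemma pair (s t : ℝ) (hs : (339 / 500) ≤ s) (ht : (339 / 500) ≤ t)
    (h : s ^ 2 + t ^ 2 - (1013 / 1000) * (s * t) ≤ (2973831 / 4000000)) : F s + F t < BB := by
  wlog hst : s ≤ t with H
  · have := H t s ht hs (by linarith) (le_of_not_ge hst)
    linarith
  have hs2 : s ^ 2 ≤ (7599 / 10000) := by nlinarith [mul_nonneg (sub_nonneg.2 hs) (sub_nonneg.2 hst), mul_nonneg (sub_nonneg.2 hst) (sub_nonneg.2 hst)]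
  obtain ⟨r, hr⟩ : ∃ r, r = Real.sqrt ((2973831 / 4000000) * (1 - s ^ 2)) := ⟨_, rfl⟩
  have hr0 : 0 ≤ r := by rw [hr]; exact Real.sqrt_nonneg _
  have hr2 : r ^ 2 = (2973831 / 4000000) * (1 - s ^ 2) := by rw [hr]; exact Real.sq_sqrt (by nlinarith)
  obtain ⟨w, hw⟩ : ∃ w, w = (1013 / 2000) * s + r := ⟨_, rfl⟩
  have hw2 : w ^ 2 - (1013 / 1000) * (w * s) + s ^ 2 = (2973831 / 4000000) := by rw [hw]; nlinarith
  have htw : t ≤ w := by
    have h1 : t - (1013 / 2000) * s ≤ r := by
      apply le_of_sq_le_sq _ hr0
      nlinarith
    rw [hw]; linarith
  have hsw : s ≤ w := hst.trans htw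
  have hwhi : w ≤ (49 / 50) := by
    by_contra hc
    push Not at hc
    nlinarith [mul_nonneg (sub_nonneg.2 hs) (sub_nonneg.2 hsw), mul_pos (sub_pos.2 hc) (sub_pos.2 hc)]
  have hm := F_mono ⟨ht, htw.trans hwhi⟩ ⟨hs.trans hsw, hwhi⟩ htw
  have := pair_aux s w hs hsw hw2
  linarith

lemma maj1_aux (s : ℝ) (h0 : 0 ≤ s) (h1 : s ≤ (161 / 500)) : 0 < 6640625000000000000 * s ^ 8 + 40521093750000000000 * s ^ 7 + 95830706250000000000 * s ^ 6 + 107110427287500000000 * s ^ 5 + 50965192765968750000 * s ^ 4 + (-1451594428999087500) * s ^ 3 + (-10240797091891320800) * s ^ 2 + (1782550590837214612 / 5) * s + (157488244283100846968 / 625) := by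
  rcases le_total s (21 / 128) with g0 | g0
  · exact piece 0 (21 / 128) [(157488244283100846968 / 625), (1782550590837214612 / 5), (-10240797091891320800), (-1451594428999087500), 50965192765968750000, 107110427287500000000, 95830706250000000000, 40521093750000000000, 6640625000000000000] s (by linarith) (by linarith) (by simp only [ev]; ring) (by norm_num [low])
  rcases le_total s (105 / 512) with g1 | g1
  · exact piece (21 / 128) (21 / 512) [(880401227240711596021948480339313 / 10995116277760000), (-151068413983504162848603134267 / 85899345920), (846046523563815183031799575 / 268435456), (73777970561924070409584375 / 1048576), (6033255033338643638671875 / 32768), (14463384600007177734375 / 64), 147371437298583984375, 49236914062500000000, 6640625000000000000] s (by linarith) (by linarith) (by simp only [ev]; ring) (by norm_num [low])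
  rcases le_total s (441 / 2048) with g2 | g2
  · exact piece (105 / 512) (21 / 2048) [(13434550665833429874965028474400769393 / 720575940379279360000), (-1535316911415244955537326867036403 / 1407374883553280), (15206388197512926763561299443575 / 1099511627776), (112289218714880597870982759375 / 1073741824), (1965493150932794369888671875 / 8388608), (1081436859063978662109375 / 4096), (2589129858197021484375 / 16), 51415869140625000000, 6640625000000000000] s (by linarith) (by linarith) (by simp only [ev]; ring) (by norm_num [low])
  rcases le_total s (231 / 1024) with g3 | g3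
  · exact piece (441 / 2048) (21 / 2048) [(426317134829908704258480044203230645788273 / 47223664828696452136960000), (-17830410451668246744354241649732612627 / 23058430092136939520), (77451999996793262976045587025467575 / 4503599627370496), (125859734271671272001470101459375 / 1099511627776), (532787513875060541133638671875 / 2147483648), (71851667125450536474609375 / 262144), (42375849114056396484375 / 256), 51960607910156250000, 6640625000000000000] s (by linarith) (by linarith) (by simp only [ev]; ring) (by norm_num [low])
  rcases le_total s (945 / 4096) with g4 | g4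
  · exact piece (231 / 1024) (21 / 4096) [(559485460976716388285101581693454341233 / 184467440737095516160000), (-69065356512454581334540511732913709 / 180143985094819840), (1469197452174359480916464359173175 / 70368744177664), (4292783890445682922837879940625 / 34359738368), (35220629259374768036138671875 / 134217728), (9318940771192304150390625 / 32768), (10833907517962646484375 / 64), 52505346679687500000, 6640625000000000000] s (by linarith) (by linarith) (by simp only [ev]; ring) (by norm_num [low])
  rcases le_total s (483 / 2048) with g5 | g5
  · exact piece (945 / 4096) (21 / 4096) [(19743949118624801407889219886765152857310513 / 12089258196146291747061760000), (-470195654496257402125972500787905401131 / 2951479051793528258560), (6583744691543224959376268587685259175 / 288230376151711744), (4587803082529596468035342580684375 / 35184372088832), (9269276060318821412451451171875 / 34359738368), (607393674736900232958984375 / 2097152), (175277096565325927734375 / 1024), 52777716064453125000, 6640625000000000000] s (by linarith) (by linarith) (by simp only [ev]; ring) (by norm_num [low])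
  exact piece (483 / 2048) (189 / 2048) [(67746573952696507044085571318219733704273 / 47223664828696452136960000), (1967797134808419279712894701871265623 / 23058430092136939520), (112096627282496473002262608288542575 / 4503599627370496), (149536023852071697344838785053125 / 1099511627776), (595419305267745835278169921875 / 2147483648), (77312166715576403173828125 / 262144), (44305420604534912109375 / 256), 53050085449218750000, 6640625000000000000] s (by linarith) (by linarith) (by simp only [ev]; ring) (by norm_num [low])

lemma maj1 (s : ℝ) (h0 : (339 / 500) ≤ s) (h1 : s ≤ 1) :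
    F s ≤ 563000000000000000 * (s - (339 / 500)) + 3608000000000000000 * (s - (339 / 500)) ^ 2 := by
  obtain ⟨x, hx⟩ : ∃ x, x = s - (339 / 500) := ⟨_, rfl⟩
  have hs : s = x + (339 / 500) := by linarith
  have h := mul_nonneg (by linarith : 0 ≤ x) (maj1_aux x (by linarith) (by linarith)).le
  rw [← hx, hs, F_eq]
  linarith

lemma maj2_aux (s : ℝ) (h0 : 0 ≤ s) (h1 : s ≤ (161 / 500)) : 0 < 6640625000000000000 * s ^ 8 + 40521093750000000000 * s ^ 7 + 95830706250000000000 * s ^ 6 + 107110427287500000000 * s ^ 5 + 50965192765968750000 * s ^ 4 + (-1451594428999087500) * s ^ 3 + (-10240797091891320800) * s ^ 2 + (7492550590837214612 / 5) * s + (613244283100846968 / 625) := by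
  rcases le_total s (63 / 512) with g0 | g0
  · exact piece 0 (63 / 512) [(613244283100846968 / 625), (7492550590837214612 / 5), (-10240797091891320800), (-1451594428999087500), 50965192765968750000, 107110427287500000000, 95830706250000000000, 40521093750000000000, 6640625000000000000] s (by linarith) (by linarith) (by simp only [ev]; ring) (by norm_num [low])
  rcases le_total s (21 / 128) with g1 | g1
  · exact piece (63 / 512) (21 / 512) [(30745010250867990059181024014157945393 / 720575940379279360000), (-799156479277862814464364140249653 / 1407374883553280), (-4175033714984533864401285606425 / 1099511627776), (46982829695887344302455415625 / 1073741824), (1185946668943952440201171875 / 8388608), (784125840397340478515625 / 4096), (2136765710247802734375 / 16), 47057958984375000000, 6640625000000000000] s (by linarith) (by linarith) (by simp only [ev]; ring) (by norm_num [low])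
  rcases le_total s (189 / 1024) with g2 | g2
  · exact piece (21 / 128) (21 / 1024) [(180665155376391596021948480339313 / 10995116277760000), (-52971360942864162848603134267 / 85899345920), (846046523563815183031799575 / 268435456), (73777970561924070409584375 / 1048576), (6033255033338643638671875 / 32768), (14463384600007177734375 / 64), 147371437298583984375, 49236914062500000000, 6640625000000000000] s (by linarith) (by linarith) (by simp only [ev]; ring) (by norm_num [low])
  rcases le_total s (399 / 2048) with g3 | g3
  · exact piece (189 / 1024) (21 / 2048) [(1060814296456380705660972440060344369233 / 184467440737095516160000), (-70628440981411478233097765570967959 / 180143985094819840), (560491781479532303263904309448175 / 70368744177664), (2970054165790831039439196346875 / 34359738368), (27949207145778857305669921875 / 134217728), (8013809121588312451171875 / 32768), (9889140922503662109375 / 64), 50326391601562500000, 6640625000000000000] s (by linarith) (by linarith) (by simp only [ev]; ring) (by norm_num [low])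
  rcases le_total s (105 / 512) with g4 | g4
  · exact piece (399 / 2048) (21 / 2048) [(125778447569926293474813073204662444372273 / 47223664828696452136960000), (-4624213460199564453951226833668865877 / 23058430092136939520), (48450351705336254691523911528017575 / 4503599627370496), (104719078882025829841761574115625 / 1099511627776), (474641135490409100016451171875 / 2147483648), (66631771130252648291015625 / 262144), (40486315923138427734375 / 256), 50871130371093750000, 6640625000000000000] s (by linarith) (by linarith) (by simp only [ev]; ring) (by norm_num [low])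
  exact piece (105 / 512) (63 / 512) [(1328311917508115314965028474400769393 / 720575940379279360000), (71905205602600804462673132963597 / 1407374883553280), (15206388197512926763561299443575 / 1099511627776), (112289218714880597870982759375 / 1073741824), (1965493150932794369888671875 / 8388608), (1081436859063978662109375 / 4096), (2589129858197021484375 / 16), 51415869140625000000, 6640625000000000000] s (by linarith) (by linarith) (by simp only [ev]; ring) (by norm_num [low])

lemma maj2 (s : ℝ) (h0 : (339 / 500) ≤ s) (h1 : s ≤ 1) :
    F s ≤ 312000000000000000 * (s - (339 / 500)) + 4750000000000000000 * (s - (339 / 500)) ^ 2 := by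
  obtain ⟨x, hx⟩ : ∃ x, x = s - (339 / 500) := ⟨_, rfl⟩
  have hs : s = x + (339 / 500) := by linarith
  have h := mul_nonneg (by linarith : 0 ≤ x) (maj2_aux x (by linarith) (by linarith)).le
  rw [← hx, hs, F_eq]
  linarith

/-- convexity bound -/
lemma chord (X Y A B C D ξ M g2 g1 g0 : ℝ) (hX : 0 ≤ X) (hA : 0 ≤ A) (hB : 0 ≤ B) (hD : 0 < D)
    (hg2 : 0 ≤ g2) (h1 : Y ≤ X ^ 2) (h2 : D * Y ≤ g2 * X ^ 2 - g1 * X + g0) (hXM : X ≤ M)
    (hξM : ξ < M) (c1 : A * ξ + B * ξ ^ 2 < C)
    (c2 : A * D * ξ + B * (g2 * ξ ^ 2 - g1 * ξ + g0) < C * D)
    (c3 : A * D * M + B * (g2 * M ^ 2 - g1 * M + g0) < C * D) : A * X + B * Y < C := by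
  rcases le_total X ξ with h | h
  · have a1 : A * X ≤ A * ξ := mul_le_mul_of_nonneg_left h hA
    have a2 : B * Y ≤ B * ξ ^ 2 :=
      mul_le_mul_of_nonneg_left (h1.trans (pow_le_pow_left₀ hX h 2)) hB
    linarith
  · have b1 : B * (D * Y) ≤ B * (g2 * X ^ 2 - g1 * X + g0) := mul_le_mul_of_nonneg_left h2 hB
    have b2 : 0 ≤ B * g2 * ((X - ξ) * (M - X) * (M - ξ)) :=
      mul_nonneg (mul_nonneg hB hg2) (mul_nonneg (mul_nonneg (by linarith) (by linarith)) (by linarith))
    have b3 : (A * D * X + B * (g2 * X ^ 2 - g1 * X + g0)) * (M - ξ) < C * D * (M - ξ) := by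
      have e : (A * D * X + B * (g2 * X ^ 2 - g1 * X + g0)) * (M - ξ)
          = (M - X) * (A * D * ξ + B * (g2 * ξ ^ 2 - g1 * ξ + g0))
            + (X - ξ) * (A * D * M + B * (g2 * M ^ 2 - g1 * M + g0))
            - B * g2 * ((X - ξ) * (M - X) * (M - ξ)) := by ring
      rcases h.eq_or_lt with h' | h'
      · subst h'
        have : (A * D * ξ + B * (g2 * ξ ^ 2 - g1 * ξ + g0)) * (M - ξ) < C * D * (M - ξ) :=
          mul_lt_mul_of_pos_right c2 (by linarith)
        exact this
      · have d1 : (M - X) * (A * D * ξ + B * (g2 * ξ ^ 2 - g1 * ξ + g0)) ≤ (M - X) * (C * D) :=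
          mul_le_mul_of_nonneg_left c2.le (by linarith)
        have d2 : (X - ξ) * (A * D * M + B * (g2 * M ^ 2 - g1 * M + g0)) < (X - ξ) * (C * D) :=
          mul_lt_mul_of_pos_left c3 (by linarith)
        rw [e]
        linarith
    have b4 : A * D * X + B * (g2 * X ^ 2 - g1 * X + g0) < C * D :=
      lt_of_mul_lt_mul_right b3 (by linarith)
    have b5 : (A * X + B * Y) * D < C * D := by linarith
    exact lt_of_mul_lt_mul_right b5 hD.le

/-- bound for `3 ≤ m ≤ 12` points -/
lemma many (n : ℕ) (X Y V : ℝ) (h3 : 3 ≤ n) (h12 : n ≤ 12) (hX : 0 ≤ X) (h1 : Y ≤ X ^ 2)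
    (hK1 : (n * (339 / 500) + X) ^ 2 ≤ n * ((987 / 2000) + n * (1013 / 2000)))
    (hK2 : (Y + (339 / 500) * X) ^ 2 ≤ (987 / 2000) * Y + (1013 / 2000) * X ^ 2)
    (hK3 : (1013 / 2000) * X ≤ (987 / 2000) * (339 / 500) →
      ((987 / 2000) + n * (1013 / 2000)) * Y ≤ (1013 / 2000) * X ^ 2 - (334593 / 500000) * X
        + (987 / 2000) * ((987 / 2000) + n * ((1013 / 2000) - (339 / 500) ^ 2)))
    (hV1 : V ≤ 563000000000000000 * X + 3608000000000000000 * Y) (hV2 : V ≤ 312000000000000000 * X + 4750000000000000000 * Y) : V < BB := by
  rcases le_or_gt ((1013 / 2000) * X) ((987 / 2000) * (339 / 500)) with hc | hc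
  · have h2 := hK3 hc
    interval_cases n
    · refine lt_of_le_of_lt hV1 (chord X Y _ _ _ (2013 / 1000) (7 / 25) (53 / 125) (1013 / 2000) (334593 / 500000) (156426669 / 500000000) hX (by norm_num) (by norm_num)
        (by norm_num) (by norm_num) h1 (by norm_num at h2 ⊢; linarith) ?_ (by norm_num)
        (by unfold BB; norm_num) (by unfold BB; norm_num) (by unfold BB; norm_num))
      by_contra hM
      push Not at hM
      norm_num at hK1
      nlinarith
    · refine lt_of_le_of_lt hV2 (chord X Y _ _ _ (5039 / 2000) (27 / 100) (463 / 1000) (1013 / 2000) (334593 / 500000) (167978517 / 500000000) hX (by norm_num) (by norm_num)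
        (by norm_num) (by norm_num) h1 (by norm_num at h2 ⊢; linarith) ?_ (by norm_num)
        (by unfold BB; norm_num) (by unfold BB; norm_num) (by unfold BB; norm_num))
      by_contra hM
      push Not at hM
      norm_num at hK1
      nlinarith
    · refine lt_of_le_of_lt hV2 (chord X Y _ _ _ (1513 / 500) (27 / 100) (1 / 2) (1013 / 2000) (334593 / 500000) (35906073 / 100000000) hX (by norm_num) (by norm_num)
        (by norm_num) (by norm_num) h1 (by norm_num at h2 ⊢; linarith) ?_ (by norm_num)
        (by unfold BB; norm_num) (by unfold BB; norm_num) (by unfold BB; norm_num))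
      by_contra hM
      push Not at hM
      norm_num at hK1
      nlinarith
    · refine lt_of_le_of_lt hV2 (chord X Y _ _ _ (1413 / 400) (13 / 50) (67 / 125) (1013 / 2000) (334593 / 500000) (191082213 / 500000000) hX (by norm_num) (by norm_num)
        (by norm_num) (by norm_num) h1 (by norm_num at h2 ⊢; linarith) ?_ (by norm_num)
        (by unfold BB; norm_num) (by unfold BB; norm_num) (by unfold BB; norm_num))
      by_contra hM
      push Not at hM
      norm_num at hK1
      nlinarith
    · refine lt_of_le_of_lt hV2 (chord X Y _ _ _ (4039 / 1000) (13 / 50) (143 / 250) (1013 / 2000) (334593 / 500000) (202634061 / 500000000) hX (by norm_num) (by norm_num)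
        (by norm_num) (by norm_num) h1 (by norm_num at h2 ⊢; linarith) ?_ (by norm_num)
        (by unfold BB; norm_num) (by unfold BB; norm_num) (by unfold BB; norm_num))
      by_contra hM
      push Not at hM
      norm_num at hK1
      nlinarith
    · refine lt_of_le_of_lt hV2 (chord X Y _ _ _ (9091 / 2000) (1 / 4) (607 / 1000) (1013 / 2000) (334593 / 500000) (214185909 / 500000000) hX (by norm_num) (by norm_num)
        (by norm_num) (by norm_num) h1 (by norm_num at h2 ⊢; linarith) ?_ (by norm_num)
        (by unfold BB; norm_num) (by unfold BB; norm_num) (by unfold BB; norm_num))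
      by_contra hM
      push Not at hM
      norm_num at hK1
      nlinarith
    · refine lt_of_le_of_lt hV2 (chord X Y _ _ _ (1263 / 250) (1 / 4) (641 / 1000) (1013 / 2000) (334593 / 500000) (225737757 / 500000000) hX (by norm_num) (by norm_num)
        (by norm_num) (by norm_num) h1 (by norm_num at h2 ⊢; linarith) ?_ (by norm_num)
        (by unfold BB; norm_num) (by unfold BB; norm_num) (by unfold BB; norm_num))
      by_contra hM
      push Not at hM
      norm_num at hK1
      nlinarith
    · refine lt_of_le_of_lt hV2 (chord X Y _ _ _ (11117 / 2000) (1 / 4) (661 / 1000) (1013 / 2000) (334593 / 500000) (47457921 / 100000000) hX (by norm_num) (by norm_num)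
        (by norm_num) (by norm_num) h1 (by norm_num at h2 ⊢; linarith) ?_ (by norm_num)
        (by unfold BB; norm_num) (by unfold BB; norm_num) (by unfold BB; norm_num))
      linarith
    · refine lt_of_le_of_lt hV2 (chord X Y _ _ _ (1213 / 200) (1 / 4) (661 / 1000) (1013 / 2000) (334593 / 500000) (248841453 / 500000000) hX (by norm_num) (by norm_num)
        (by norm_num) (by norm_num) h1 (by norm_num at h2 ⊢; linarith) ?_ (by norm_num)
        (by unfold BB; norm_num) (by unfold BB; norm_num) (by unfold BB; norm_num))
      linarith
    · refine lt_of_le_of_lt hV2 (chord X Y _ _ _ (13143 / 2000) (6 / 25) (661 / 1000) (1013 / 2000) (334593 / 500000) (260393301 / 500000000) hX (by norm_num) (by norm_num)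
        (by norm_num) (by norm_num) h1 (by norm_num at h2 ⊢; linarith) ?_ (by norm_num)
        (by unfold BB; norm_num) (by unfold BB; norm_num) (by unfold BB; norm_num))
      linarith
  · have hn : (n : ℝ) ≤ 12 := by exact_mod_cast h12
    have hn3 : (3 : ℝ) ≤ n := by exact_mod_cast h3
    have hX1 : X ≤ 3 / 4 := by
      by_contra hM
      push Not at hM
      nlinarith
    have hX2 : (33 / 50) < X := by linarith
    have hY : Y ≤ 47 / 1000 := by
      by_contra hM
      push Not at hM
      nlinarith
    refine lt_of_le_of_lt hV2 ?_
    unfold BB
    linarith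

end Pool.Agent.W2helper54.K13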