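import Mathlib
import Pool.Agent.Helper843.Leg
import Pool.Agent.W2helper54.K13Poly

set_option autoImplicit false

namespace Pool.Agent.W2helper54.K13

open Finset
open Pool.Agent.Helper843

section gram

variable {V : Type*} [NormedAddCommGroup V] [InnerProductSpace ℝ V]

lemma wnorm {ι : Type*} (S : Finset ι) (y : ι → V) (z : ℝ) (l : ι → ℝ) (hl : ∀ i ∈ S, 0 ≤ l i)
    (hy : ∀ i ∈ S, ‖y i‖ = 1)
    (hij : ∀ i ∈ S, ∀ j ∈ S, i ≠ j → inner ℝ (y i) (y j) ≤ z) :
    ‖∑ i ∈ S, l i • y i‖ ^ 2 ≤ (1 - z) * ∑ i ∈ S, l i ^ 2 + z * (∑ i ∈ S, l i) ^ 2 := by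
  classical
  rw [← real_inner_self_eq_norm_sq, sum_inner]
  simp_rw [inner_sum, real_inner_smul_left, real_inner_smul_right]
  have h1 : ∀ i ∈ S, ∀ j ∈ S, l i * (l j * inner ℝ (y i) (y j)) ≤
      z * (l i * l j) + (if i = j then (1 - z) * l i ^ 2 else 0) := by
    intro i hi j hj
    split_ifs with h
    · subst h
      rw [real_inner_self_eq_norm_sq, hy i hi]
      nlinarith
    · have := mul_le_mul_of_nonneg_left (hij i hi j hj h) (mul_nonneg (hl i hi) (hl j hj))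
      linarith
  calc ∑ i ∈ S, ∑ j ∈ S, l i * (l j * inner ℝ (y i) (y j))
      ≤ ∑ i ∈ S, ∑ j ∈ S, (z * (l i * l j) + (if i = j then (1 - z) * l i ^ 2 else 0)) :=
        sum_le_sum fun i hi => sum_le_sum fun j hj => h1 i hi j hj
    _ = (1 - z) * ∑ i ∈ S, l i ^ 2 + z * (∑ i ∈ S, l i) ^ 2 := by
        simp_rw [sum_add_distrib]
        rw [sq (∑ i ∈ S, l i), sum_mul_sum, add_comm]
        congr 1
        · rw [mul_sum]
          refine sum_congr rfl fun i hi => ?_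
          simp [hi]
        · rw [mul_sum]
          refine sum_congr rfl fun i _ => ?_
          rw [mul_sum]

lemma key {ι : Type*} (S : Finset ι) (y : ι → V) (e : V) (z : ℝ) (he : ‖e‖ = 1)
    (hy : ∀ i ∈ S, ‖y i‖ = 1)
    (hij : ∀ i ∈ S, ∀ j ∈ S, i ≠ j → inner ℝ (y i) (y j) ≤ z) (l : ι → ℝ)
    (hl : ∀ i ∈ S, 0 ≤ l i) :
    (∑ i ∈ S, l i * inner ℝ e (y i)) ^ 2
      ≤ (1 - z) * ∑ i ∈ S, l i ^ 2 + z * (∑ i ∈ S, l i) ^ 2 := by
  refine le_trans ?_ (wnorm S y z l hl hy hij)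
  have h1 : ∑ i ∈ S, l i * inner ℝ e (y i) = inner ℝ e (∑ i ∈ S, l i • y i) := by
    rw [inner_sum]
    refine sum_congr rfl fun i _ => ?_
    rw [real_inner_smul_right]
  rw [h1]
  have h2 := abs_real_inner_le_norm e (∑ i ∈ S, l i • y i)
  rw [he, one_mul] at h2
  exact sq_le_sq' (by linarith [neg_abs_le (inner ℝ e (∑ i ∈ S, l i • y i))])
    ((le_abs_self _).trans h2)

/-- the local bound -/
lemma local_bound {ι : Type*} (S : Finset ι) (y : ι → V) (e : V) (he : ‖e‖ = 1)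
    (hS : #S ≤ 12) (hy : ∀ i ∈ S, ‖y i‖ = 1)
    (hij : ∀ i ∈ S, ∀ j ∈ S, i ≠ j → inner ℝ (y i) (y j) ≤ (1013 / 2000))
    (hs : ∀ i ∈ S, (339 / 500) ≤ inner ℝ e (y i)) :
    ∑ i ∈ S, F (inner ℝ e (y i)) < BB := by
  classical
  have hs1 : ∀ i ∈ S, inner ℝ e (y i) ≤ 1 := by
    intro i hi
    have := real_inner_le_norm e (y i)
    rw [he, hy i hi] at this
    linarith
  set x : ι → ℝ := fun i => inner ℝ e (y i) - (339 / 500) with hx
  have hx0 : ∀ i ∈ S, 0 ≤ x i := fun i hi => sub_nonneg.2 (hs i hi)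
  set X : ℝ := ∑ i ∈ S, x i with hX
  set Y : ℝ := ∑ i ∈ S, x i ^ 2 with hY
  set n : ℕ := #S with hn
  have hX0 : 0 ≤ X := sum_nonneg hx0
  have hY0 : 0 ≤ Y := sum_nonneg fun i _ => sq_nonneg _
  have e1 : ∑ i ∈ S, inner ℝ e (y i) = X + n * (339 / 500) := by
    rw [hX, hx]
    simp only [sum_sub_distrib, sum_const, nsmul_eq_mul]
    ring
  have e2 : ∑ i ∈ S, (inner ℝ e (y i)) ^ 2 = Y + 2 * (339 / 500) * X + n * (339 / 500) ^ 2 := by
    have : ∀ i ∈ S, (inner ℝ e (y i)) ^ 2 = x i ^ 2 + 2 * (339 / 500) * x i + (339 / 500) ^ 2 := fun i _ => by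
      simp only [hx]; ring
    rw [sum_congr rfl this, sum_add_distrib, sum_add_distrib, ← mul_sum, sum_const, nsmul_eq_mul]
  have hK1 : (n * (339 / 500) + X) ^ 2 ≤ n * ((987 / 2000) + n * (1013 / 2000)) := by
    have h := key S y e (1013 / 2000) he hy hij (fun _ => 1) (fun _ _ => zero_le_one)
    simp only [one_mul, one_pow, sum_const, nsmul_eq_mul, mul_one] at h
    rw [e1] at h
    linarith
  have hK2 : (Y + (339 / 500) * X) ^ 2 ≤ (987 / 2000) * Y + (1013 / 2000) * X ^ 2 := by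
    have h := key S y e (1013 / 2000) he hy hij x hx0
    have e3 : ∑ i ∈ S, x i * inner ℝ e (y i) = Y + (339 / 500) * X := by
      rw [hY, hX, mul_sum, ← sum_add_distrib]
      refine sum_congr rfl fun i _ => ?_
      simp only [hx]; ring
    rw [e3] at h
    linarith
  have hK3 : (1013 / 2000) * X ≤ (987 / 2000) * (339 / 500) →
      ((987 / 2000) + n * (1013 / 2000)) * Y ≤ (1013 / 2000) * X ^ 2 - (334593 / 500000) * X
        + (987 / 2000) * ((987 / 2000) + n * ((1013 / 2000) - (339 / 500) ^ 2)) := by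
    intro hc
    set D : ℝ := (987 / 2000) + n * (1013 / 2000) with hD
    have hD0 : 0 < D := by rw [hD]; positivity
    set σ : ℝ := ∑ i ∈ S, inner ℝ e (y i) with hσ
    set Q : ℝ := ∑ i ∈ S, (inner ℝ e (y i)) ^ 2 with hQ
    have h := key S y e (1013 / 2000) he hy hij (fun i => D * inner ℝ e (y i) - (1013 / 2000) * σ) (fun i hi => by
      have h1 := mul_le_mul_of_nonneg_left (hs i hi) hD0.le
      show 0 ≤ D * inner ℝ e (y i) - (1013 / 2000) * σ
      rw [e1]
      rw [hD] at h1 ⊢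
      linarith)
    have e3 : ∑ i ∈ S, (D * inner ℝ e (y i) - (1013 / 2000) * σ) = D * σ - n * ((1013 / 2000) * σ) := by
      rw [sum_sub_distrib, ← mul_sum, sum_const, nsmul_eq_mul]
    have e4 : ∑ i ∈ S, (D * inner ℝ e (y i) - (1013 / 2000) * σ) * inner ℝ e (y i)
        = D * Q - (1013 / 2000) * σ ^ 2 := by
      have : ∀ i ∈ S, (D * inner ℝ e (y i) - (1013 / 2000) * σ) * inner ℝ e (y i)
          = D * (inner ℝ e (y i)) ^ 2 - (1013 / 2000) * σ * inner ℝ e (y i) := fun i _ => by ring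
      rw [sum_congr rfl this, sum_sub_distrib, ← mul_sum, ← mul_sum]
      ring
    have e5 : ∑ i ∈ S, (D * inner ℝ e (y i) - (1013 / 2000) * σ) ^ 2
        = D ^ 2 * Q - 2 * D * (1013 / 2000) * σ ^ 2 + n * (1013 / 2000) ^ 2 * σ ^ 2 := by
      have : ∀ i ∈ S, (D * inner ℝ e (y i) - (1013 / 2000) * σ) ^ 2
          = D ^ 2 * (inner ℝ e (y i)) ^ 2 - 2 * D * (1013 / 2000) * σ * inner ℝ e (y i)
            + (1013 / 2000) ^ 2 * σ ^ 2 := fun i _ => by ring
      rw [sum_congr rfl this, sum_add_distrib, sum_sub_distrib, ← mul_sum, ← mul_sum, sum_const,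
        nsmul_eq_mul]
      ring
    rw [e3, e4, e5] at h
    set q : ℝ := D * Q - (1013 / 2000) * σ ^ 2 with hq
    have h3 : q ^ 2 ≤ (987 / 2000) * D * q := by
      have : (1 - (1013 / 2000)) * (D ^ 2 * Q - 2 * D * (1013 / 2000) * σ ^ 2 + n * (1013 / 2000) ^ 2 * σ ^ 2)
          + (1013 / 2000) * (D * σ - n * ((1013 / 2000) * σ)) ^ 2 = (987 / 2000) * D * q := by
        rw [hq, hD]; ring
      linarith
    have h4 : q ≤ (987 / 2000) * D := by
      by_contra hcon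
      push Not at hcon
      have hq0 : 0 < q := lt_of_le_of_lt (by positivity) hcon
      nlinarith
    have h5 : q = D * Y - (1013 / 2000) * X ^ 2 + (334593 / 500000) * X + (987 / 2000) * n * (339 / 500) ^ 2 := by
      rw [hq, e1, e2, hD]; ring
    rw [h5] at h4
    have h6 : (987 / 2000) * D = (987 / 2000) * ((987 / 2000) + n * (1013 / 2000)) := by rw [hD]
    linarith
  rcases Nat.lt_or_ge n 3 with h3 | h3
  · interval_cases hc : n
    · have hn0 := hn.symm
      rw [card_eq_zero] at hn0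
      subst hn0
      simp [BB]
    · obtain ⟨i, hi⟩ := card_eq_one.1 hn.symm
      subst hi
      have := I2 (inner ℝ e (y i)) (hs i (by simp)) (hs1 i (by simp))
      simp only [sum_singleton]
      linarith
    · obtain ⟨i, j, hne, hi⟩ := card_eq_two.1 hn.symm
      have hXlt : (1013 / 2000) * X ≤ (987 / 2000) * (339 / 500) := by
        push_cast at hK1
        nlinarith
      have hg := hK3 hXlt
      have hXe : X = inner ℝ e (y i) - (339 / 500) + (inner ℝ e (y j) - (339 / 500)) := by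
        rw [hX, hi, sum_pair hne]
      have hYe : Y = (inner ℝ e (y i) - (339 / 500)) ^ 2 + (inner ℝ e (y j) - (339 / 500)) ^ 2 := by
        rw [hY, hi, sum_pair hne]
      rw [hXe, hYe] at hg
      push_cast at hg
      rw [hi, sum_pair hne]
      refine pair _ _ (hs i (by simp [hi])) (hs j (by simp [hi])) ?_
      nlinarith
  · have hYX : Y ≤ X ^ 2 := by
      rw [hY, sq X, hX, sum_mul]
      refine sum_le_sum fun i hi => ?_
      rw [sq]
      exact mul_le_mul_of_nonneg_left (single_le_sum hx0 hi) (hx0 i hi)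
    refine many n X Y _ h3 hS hX0 hYX hK1 hK2 hK3 ?_ ?_
    · rw [hX, hY, mul_sum, mul_sum, ← sum_add_distrib]
      exact sum_le_sum fun i hi => maj1 _ (hs i hi) (hs1 i hi)
    · rw [hX, hY, mul_sum, mul_sum, ← sum_add_distrib]
      exact sum_le_sum fun i hi => maj2 _ (hs i hi) (hs1 i hi)

end gram

abbrev E := EuclideanSpace ℝ (Fin 3)

lemma f_expand (t : ℝ) : f t = 176019985438537104 + (23136233019943003134 / 77) * Leg.P1 t
    + 614323890487646550 * Leg.P2 t + (3893418227898564500 / 13) * Leg.P3 t + 347494814233200000 * Leg.P4 t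
    + (58092301850000000 / 7) * Leg.P5 t + (10000000000000000000 / 143) * Leg.P9 t := by
  unfold f Leg.P1 Leg.P2 Leg.P3 Leg.P4 Leg.P5 Leg.P9
  ring

lemma sum_f {ι : Type*} [Fintype ι] (x : ι → E) (hx : ∀ i, ‖x i‖ = 1) :
    176019985438537104 * (Fintype.card ι : ℝ) ^ 2 ≤ ∑ i, ∑ j, f (inner ℝ (x i) (x j)) := by
  set z : ι → ℝ := fun i => x i 2 with hz
  set ξ : ι → ℂ := fun i => ⟨x i 0, x i 1⟩ with hξ
  have hn : ∀ i, Complex.normSq (ξ i) = 1 - z i ^ 2 := by
    intro i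
    have h1 : ‖x i‖ ^ 2 = 1 := by rw [hx i]; norm_num
    rw [EuclideanSpace.norm_sq_eq, Fin.sum_univ_three] at h1
    simp only [Real.norm_eq_abs, sq_abs] at h1
    simp only [hξ, hz, Complex.normSq_mk]
    linarith
  have hin : ∀ i j, inner ℝ (x i) (x j) = z i * z j + (ξ i * (starRingEnd ℂ) (ξ j)).re := by
    intro i j
    simp only [PiLp.inner_apply, Fin.sum_univ_three, hz, hξ, Complex.mul_re, Complex.conj_re,
      Complex.conj_im]
    simp
    ring
  have p1 := Leg.psdP 2 Leg.P1 Leg.a1 Leg.q1 Leg.a1_nonneg Leg.add1 z ξ hn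
  have p2 := Leg.psdP 3 Leg.P2 Leg.a2 Leg.q2 Leg.a2_nonneg Leg.add2 z ξ hn
  have p3 := Leg.psdP 4 Leg.P3 Leg.a3 Leg.q3 Leg.a3_nonneg Leg.add3 z ξ hn
  have p4 := Leg.psdP 5 Leg.P4 Leg.a4 Leg.q4 Leg.a4_nonneg Leg.add4 z ξ hn
  have p5 := Leg.psdP 6 Leg.P5 Leg.a5 Leg.q5 Leg.a5_nonneg Leg.add5 z ξ hn
  have p9 := Leg.psdP 10 Leg.P9 Leg.a9 Leg.q9 Leg.a9_nonneg Leg.add9 z ξ hn
  simp_rw [← hin] at p1 p2 p3 p4 p5 p9
  simp_rw [f_expand, sum_add_distrib, ← mul_sum]
  have : ∑ i : ι, ∑ j : ι, (176019985438537104 : ℝ) = 176019985438537104 * (Fintype.card ι : ℝ) ^ 2 := by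
    simp only [sum_const, card_univ, nsmul_eq_mul]
    ring
  rw [this]
  nlinarith

end Pool.Agent.W2helper54.K13
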