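import Mathlib
import Pool.Agent.Helper843.Leg

set_option autoImplicit false

namespace Pool.Agent.W2helper54.K13

open Finset
open Pool.Agent.Helper843

/-- a linear programming bound for unit complex numbers with pairwise inner products at most `κ` -/
lemma circle {ι : Type*} [Fintype ι] (u : ι → ℂ) (hu : ∀ i, Complex.normSq (u i) = 1) (κ α : ℝ)
    (hκ1 : κ ≤ 1) (h1 : 0 ≤ 3 / 4 + α ^ 2 - 2 * α * κ) (h2 : 0 ≤ 2 * α - κ)
    (hκ : ∀ i j, i ≠ j → (u i * (starRingEnd ℂ) (u j)).re ≤ κ) :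
    (Fintype.card ι : ℝ) * ((2 * α - κ) / 2 - κ * α ^ 2) ≤ (1 - κ) * (1 + α) ^ 2 := by
  classical
  set c : ι → ι → ℝ := fun i j => (u i * (starRingEnd ℂ) (u j)).re with hc
  have hS : ∀ m : ℕ, 0 ≤ ∑ i, ∑ j, ((u i * (starRingEnd ℂ) (u j)) ^ m).re := by
    intro m
    have h := Leg.psd (fun i => u i ^ m)
    simp_rw [map_pow, ← mul_pow] at h
    exact h
  have hn : ∀ i j, (u i * (starRingEnd ℂ) (u j)).re ^ 2 + (u i * (starRingEnd ℂ) (u j)).im ^ 2 = 1 := by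
    intro i j
    have h : Complex.normSq (u i * (starRingEnd ℂ) (u j)) = 1 := by
      rw [Complex.normSq_mul, Complex.normSq_conj, hu, hu, one_mul]
    rw [Complex.normSq_apply] at h
    linarith
  have e2 : ∀ i j, ((u i * (starRingEnd ℂ) (u j)) ^ 2).re = 2 * c i j ^ 2 - 1 := by
    intro i j
    have h := hn i j
    rw [sq, Complex.mul_re]
    simp only [hc]
    linarith
  have e3 : ∀ i j, ((u i * (starRingEnd ℂ) (u j)) ^ 3).re = 4 * c i j ^ 3 - 3 * c i j := by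
    intro i j
    have h := hn i j
    obtain ⟨w, hw⟩ : ∃ w, w = u i * (starRingEnd ℂ) (u j) := ⟨_, rfl⟩
    simp only [hc]
    rw [← hw] at h ⊢
    have e : (w ^ 3).re = w.re ^ 3 - 3 * w.re * w.im ^ 2 := by
      rw [pow_succ, sq, Complex.mul_re, Complex.mul_re, Complex.mul_im]
      ring
    rw [e]
    have : w.im ^ 2 = 1 - w.re ^ 2 := by linarith
    rw [this]
    ring
  have s1 := hS 1
  have s2 := hS 2
  have s3 := hS 3
  simp_rw [pow_one] at s1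
  simp_rw [e2] at s2
  simp_rw [e3] at s3
  have key : ∑ i, ∑ j, ((c i j - κ) * (c i j + α) ^ 2) =
      ((2 * α - κ) / 2 - κ * α ^ 2) * (Fintype.card ι : ℝ) ^ 2
      + (3 / 4 + α ^ 2 - 2 * α * κ) * ∑ i, ∑ j, c i j
      + (2 * α - κ) / 2 * ∑ i, ∑ j, (2 * c i j ^ 2 - 1)
      + 1 / 4 * ∑ i, ∑ j, (4 * c i j ^ 3 - 3 * c i j) := by
    have hconst : ((2 * α - κ) / 2 - κ * α ^ 2) * (Fintype.card ι : ℝ) ^ 2
        = ∑ i : ι, ∑ j : ι, ((2 * α - κ) / 2 - κ * α ^ 2) := by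
      simp only [sum_const, card_univ, nsmul_eq_mul]
      ring
    rw [hconst]
    simp_rw [mul_sum, ← sum_add_distrib]
    refine sum_congr rfl fun i _ => sum_congr rfl fun j _ => ?_
    ring
  have hle : ∑ i, ∑ j, ((c i j - κ) * (c i j + α) ^ 2) ≤
      (Fintype.card ι : ℝ) * ((1 - κ) * (1 + α) ^ 2) := by
    have h3 : ∀ i, ∑ j, ((c i j - κ) * (c i j + α) ^ 2) ≤ (1 - κ) * (1 + α) ^ 2 := by
      intro i
      calc ∑ j, ((c i j - κ) * (c i j + α) ^ 2)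
          ≤ ∑ j, (if j = i then (1 - κ) * (1 + α) ^ 2 else 0) := by
            refine sum_le_sum fun j _ => ?_
            split_ifs with h
            · subst h
              have : c j j = 1 := by
                simp only [hc]
                rw [Complex.mul_conj, hu]
                simp
              rw [this]
            · exact mul_nonpos_of_nonpos_of_nonneg (by linarith [hκ i j (Ne.symm h)]) (sq_nonneg _)
        _ = (1 - κ) * (1 + α) ^ 2 := by simp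
    calc ∑ i, ∑ j, ((c i j - κ) * (c i j + α) ^ 2)
        ≤ ∑ i : ι, (1 - κ) * (1 + α) ^ 2 := sum_le_sum fun i _ => h3 i
      _ = _ := by rw [sum_const, card_univ, nsmul_eq_mul]
  rcases Nat.eq_zero_or_pos (Fintype.card ι) with h0 | h0
  · rw [h0, Nat.cast_zero, zero_mul]
    exact mul_nonneg (by linarith) (sq_nonneg _)
  · have h0' : (0 : ℝ) < Fintype.card ι := by exact_mod_cast h0
    rw [key] at hle
    have t1 := mul_nonneg h1 s1
    have t2 := mul_nonneg (by linarith : 0 ≤ (2 * α - κ) / 2) s2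
    have t3 : (Fintype.card ι : ℝ) * ((Fintype.card ι : ℝ) * ((2 * α - κ) / 2 - κ * α ^ 2)) ≤
        (Fintype.card ι : ℝ) * ((1 - κ) * (1 + α) ^ 2) := by
      linarith
    exact le_of_mul_le_mul_left t3 h0'

/-- planar coordinates orthogonal to a unit vector -/
lemma exists_frame (e : EuclideanSpace ℝ (Fin 3)) (he : ‖e‖ = 1) :
    ∃ ζ : EuclideanSpace ℝ (Fin 3) → ℂ, ∀ y y' : EuclideanSpace ℝ (Fin 3),
      (ζ y * (starRingEnd ℂ) (ζ y')).re = inner ℝ y y' - inner ℝ e y * inner ℝ e y' := by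
  set e3 : EuclideanSpace ℝ (Fin 3) := EuclideanSpace.single 2 1 with he3
  have hn : ‖e‖ = ‖e3‖ := by rw [he, he3]; simp
  set A := (ℝ ∙ (e - e3))ᗮ.reflection with hA
  have hAe : A e = e3 := Submodule.reflection_sub hn
  refine ⟨fun y => ⟨(A y) 0, (A y) 1⟩, fun y y' => ?_⟩
  have h1 : inner ℝ y y' = inner ℝ (A y) (A y') := (A.inner_map_map y y').symm
  have h2 : ∀ y, inner ℝ e y = (A y) 2 := by
    intro y
    rw [← A.inner_map_map e y, hAe, he3]
    simp [PiLp.inner_apply, Fin.sum_univ_three]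
  rw [h1, h2, h2]
  simp only [PiLp.inner_apply, Fin.sum_univ_three, Complex.mul_re, Complex.conj_re, Complex.conj_im]
  simp
  ring

/-- unit vectors whose projections orthogonal to `e` have pairwise cosines at most `κ` -/
lemma planar {ι : Type*} (S : Finset ι) (y : ι → EuclideanSpace ℝ (Fin 3))
    (e : EuclideanSpace ℝ (Fin 3)) (he : ‖e‖ = 1) (κ α : ℝ)
    (hκ1 : κ ≤ 1) (h1 : 0 ≤ 3 / 4 + α ^ 2 - 2 * α * κ) (h2 : 0 ≤ 2 * α - κ)
    (hy : ∀ i ∈ S, ‖y i‖ = 1) (hs : ∀ i ∈ S, inner ℝ e (y i) ^ 2 < 1)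
    (hκ : ∀ i ∈ S, ∀ j ∈ S, i ≠ j → inner ℝ (y i) (y j) - inner ℝ e (y i) * inner ℝ e (y j)
      ≤ κ * (Real.sqrt (1 - inner ℝ e (y i) ^ 2) * Real.sqrt (1 - inner ℝ e (y j) ^ 2))) :
    (#S : ℝ) * ((2 * α - κ) / 2 - κ * α ^ 2) ≤ (1 - κ) * (1 + α) ^ 2 := by
  classical
  obtain ⟨ζ, hζ⟩ := exists_frame e he
  have hpos : ∀ i ∈ S, 0 < Real.sqrt (1 - inner ℝ e (y i) ^ 2) := fun i hi =>
    Real.sqrt_pos.2 (by linarith [hs i hi])
  have hsq : ∀ i ∈ S, Real.sqrt (1 - inner ℝ e (y i) ^ 2) ^ 2 = 1 - inner ℝ e (y i) ^ 2 :=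
    fun i hi => Real.sq_sqrt (by linarith [hs i hi])
  have hre : ∀ i j : S, (((((Real.sqrt (1 - inner ℝ e (y i) ^ 2))⁻¹ : ℝ) : ℂ) * ζ (y i)) *
      (starRingEnd ℂ) ((((Real.sqrt (1 - inner ℝ e (y j) ^ 2))⁻¹ : ℝ) : ℂ) * ζ (y j))).re
      = (Real.sqrt (1 - inner ℝ e (y i) ^ 2))⁻¹ * (Real.sqrt (1 - inner ℝ e (y j) ^ 2))⁻¹ *
        (inner ℝ (y i) (y j) - inner ℝ e (y i) * inner ℝ e (y j)) := by
    intro i j
    rw [map_mul, Complex.conj_ofReal]
    have : ((((Real.sqrt (1 - inner ℝ e (y i) ^ 2))⁻¹ : ℝ) : ℂ) * ζ (y i)) *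
        ((((Real.sqrt (1 - inner ℝ e (y j) ^ 2))⁻¹ : ℝ) : ℂ) * (starRingEnd ℂ) (ζ (y j)))
        = (((Real.sqrt (1 - inner ℝ e (y i) ^ 2))⁻¹ * (Real.sqrt (1 - inner ℝ e (y j) ^ 2))⁻¹ : ℝ) : ℂ)
          * (ζ (y i) * (starRingEnd ℂ) (ζ (y j))) := by
      push_cast; ring
    rw [this, Complex.re_ofReal_mul, hζ]
  have h := circle (ι := S)
    (fun i => (((Real.sqrt (1 - inner ℝ e (y i) ^ 2))⁻¹ : ℝ) : ℂ) * ζ (y i)) ?_ κ α hκ1 h1 h2 ?_
  · rw [Fintype.card_coe] at h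
    exact h
  · intro i
    have h3 := hre i i
    have h4 : Complex.normSq ((((Real.sqrt (1 - inner ℝ e (y i) ^ 2))⁻¹ : ℝ) : ℂ) * ζ (y i)) =
        (((((Real.sqrt (1 - inner ℝ e (y i) ^ 2))⁻¹ : ℝ) : ℂ) * ζ (y i)) *
      (starRingEnd ℂ) ((((Real.sqrt (1 - inner ℝ e (y i) ^ 2))⁻¹ : ℝ) : ℂ) * ζ (y i))).re := by
      rw [Complex.mul_conj, Complex.ofReal_re]
    rw [h4, h3, real_inner_self_eq_norm_sq, hy i i.2]
    have h5 := hsq i i.2
    have h6 := (hpos i i.2).ne'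
    field_simp
    linarith
  · intro i j hij
    rw [hre]
    have h3 := hκ i i.2 j j.2 (fun h => hij (Subtype.ext h))
    have p1 := hpos i i.2
    have p2 := hpos j j.2
    rw [← mul_inv, inv_mul_le_iff₀ (mul_pos p1 p2)]
    linarith

end Pool.Agent.W2helper54.K13
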