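import Mathlib
import Pool.Agent.W2helper54.K13

set_option autoImplicit false

namespace Pool.Agent.W2helper54.K13

open Finset

/-- the inner product of two unit directions is at most `1/2 + (a + b) / 2` -/
lemma dir_inner (x y : E) (a b : ℝ) (ha : 0 ≤ a) (hb : 0 ≤ b) (hx : ‖x‖ = 2 * (1 + a))
    (hy : ‖y‖ = 2 * (1 + b)) (hxy : 2 ≤ ‖x - y‖) :
    inner ℝ (‖x‖⁻¹ • x) (‖y‖⁻¹ • y) ≤ 1 / 2 + (a + b) / 2 := by
  have hx0 : 0 < ‖x‖ := by rw [hx]; linarith
  have hy0 : 0 < ‖y‖ := by rw [hy]; linarith
  have h1 : ‖x - y‖ ^ 2 = ‖x‖ ^ 2 - 2 * inner ℝ x y + ‖y‖ ^ 2 := norm_sub_sq_real x y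
  have h2 : (2 : ℝ) ^ 2 ≤ ‖x - y‖ ^ 2 := pow_le_pow_left₀ (by norm_num) hxy 2
  have h3 : inner ℝ x y ≤ (‖x‖ ^ 2 + ‖y‖ ^ 2 - 4) / 2 := by linarith
  rw [real_inner_smul_left, real_inner_smul_right, ← mul_assoc, ← mul_inv]
  rw [inv_mul_le_iff₀ (by positivity)]
  refine h3.trans ?_
  rw [hx, hy]
  nlinarith [mul_nonneg ha hb, mul_nonneg (mul_nonneg ha hb) ha, mul_nonneg (mul_nonneg ha hb) hb]

/-- thirteen unit vectors whose pairwise inner products exceed `1/2` only slightly -/
lemma no_thirteen (y : Fin 13 → E) (a : Fin 13 → ℝ) (ha : ∀ i, 0 ≤ a i) (hy : ∀ i, ‖y i‖ = 1)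
    (hij : ∀ i j, i ≠ j → inner ℝ (y i) (y j) ≤ 1 / 2 + (a i + a j) / 2) :
    (13 / 1000) ≤ ∑ i, a i := by
  classical
  by_contra hc
  push Not at hc
  have hpair : ∀ i j, i ≠ j → a i + a j ≤ (13 / 1000) := by
    intro i j hne
    have h1 : ∑ k ∈ ({i, j} : Finset (Fin 13)), a k ≤ ∑ k, a k :=
      sum_le_sum_of_subset_of_nonneg (subset_univ _) fun k _ _ => ha k
    rw [sum_pair hne] at h1
    linarith
  have hz : ∀ i j, i ≠ j → inner ℝ (y i) (y j) ≤ (1013 / 2000) := by
    intro i j hne
    have h1 := hij i j hne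
    have h2 := hpair i j hne
    linarith
  have h1 := sum_f y hy
  have h2 : ∀ i, ∑ j, f (inner ℝ (y i) (y j)) < f 1 + BB
      + 851000000000000000 * (∑ j, (a i + a j) / 2 - a i) := by
    intro i
    set S : Finset (Fin 13) := univ.filter (fun j => (339 / 500) ≤ inner ℝ (-y i) (y j)) with hS
    have hiS : i ∉ S := by
      rw [hS, mem_filter]
      rintro ⟨-, h⟩
      rw [inner_neg_left, real_inner_self_eq_norm_sq, hy i] at h
      norm_num at h
    have hcard : #S ≤ 12 := by
      have hsub : S ⊆ univ.erase i := fun j hj =>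
        mem_erase.2 ⟨fun h => hiS (h ▸ hj), mem_univ _⟩
      have := card_le_card hsub
      rw [card_erase_of_mem (mem_univ _), card_univ, Fintype.card_fin] at this
      exact this
    have hl := local_bound S y (-y i) (by rw [norm_neg, hy]) hcard (fun j _ => hy j)
      (fun j _ k _ hjk => hz j k hjk) (fun j hj => (mem_filter.1 hj).2)
    have e1 : ∀ j, f (inner ℝ (y i) (y j)) ≤
        (if j = i then f 1 else 0) + (if j ∈ S then F (inner ℝ (-y i) (y j)) else 0)
          + 851000000000000000 * ((a i + a j) / 2 - (if j = i then a i else 0)) := by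
      intro j
      by_cases hji : j = i
      · subst hji
        rw [if_pos rfl, if_neg hiS, if_pos rfl, real_inner_self_eq_norm_sq, hy j]
        norm_num
      · rw [if_neg hji, if_neg hji]
        have hnn : 0 ≤ 851000000000000000 * ((a i + a j) / 2 - 0) :=
          mul_nonneg (by norm_num) (by linarith [ha i, ha j])
        by_cases hjS : j ∈ S
        · rw [if_pos hjS, inner_neg_left]
          unfold F
          rw [neg_neg]
          linarith
        · rw [if_neg hjS]
          have hlow : ¬ ((339 / 500) ≤ inner ℝ (-y i) (y j)) := fun h => hjS (mem_filter.2 ⟨mem_univ _, h⟩)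
          rw [inner_neg_left] at hlow
          rcases le_total (inner ℝ (y i) (y j)) (1 / 2) with h5 | h5
          · have h6 := f_nonpos (inner ℝ (y i) (y j)) (by linarith) h5
            linarith
          · have h6 := f_near (inner ℝ (y i) (y j)) h5 (hz i j (Ne.symm hji))
            have h7 := hij i j (Ne.symm hji)
            linarith
    have e2 : ∑ j, ((if j = i then f 1 else 0) + (if j ∈ S then F (inner ℝ (-y i) (y j)) else 0)
          + 851000000000000000 * ((a i + a j) / 2 - (if j = i then a i else 0)))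
        = f 1 + ∑ j ∈ S, F (inner ℝ (-y i) (y j)) + 851000000000000000 * (∑ j, (a i + a j) / 2 - a i) := by
      rw [sum_add_distrib, sum_add_distrib, ← mul_sum, sum_sub_distrib]
      congr 1
      · congr 1
        · simp
        · rw [← sum_filter]
          congr 1
          ext j
          simp
      · congr 2
        simp
    have h3 := sum_le_sum fun j (_ : j ∈ (univ : Finset (Fin 13))) => e1 j
    rw [e2] at h3
    linarith
  have h3 : ∑ i, ∑ j, f (inner ℝ (y i) (y j))
      ≤ ∑ i, (f 1 + BB + 851000000000000000 * (∑ j, (a i + a j) / 2 - a i)) :=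
    sum_le_sum fun i _ => (h2 i).le
  have e3 : ∑ i, (f 1 + BB + 851000000000000000 * (∑ j, (a i + a j) / 2 - a i))
      = 13 * (f 1 + BB) + 851000000000000000 * (12 * ∑ i, a i) := by
    have e4 : ∀ i, ∑ j : Fin 13, (a i + a j) / 2 = (13 * a i + ∑ j, a j) / 2 := by
      intro i
      rw [← sum_div, sum_add_distrib, sum_const, card_univ, Fintype.card_fin, nsmul_eq_mul]
      norm_num
    simp_rw [e4]
    rw [sum_add_distrib, sum_const, card_univ, Fintype.card_fin, ← mul_sum, sum_sub_distrib,
      ← sum_div, sum_add_distrib, ← mul_sum, sum_const, card_univ, Fintype.card_fin]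
    simp only [nsmul_eq_mul]
    push_cast
    ring
  rw [e3, f_one] at h3
  rw [Fintype.card_fin] at h1
  unfold BB at h3
  norm_num at h1 h3 hc
  linarith

end Pool.Agent.W2helper54.K13
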